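import Pool.Agent.H2.LTM.FIN

/-!
# MP_e22489_mp: the conjectured magnetic inequality, with the sharp nonmagnetic constant, holds after
Laplace averaging over the coupling constant
-/

namespace Pool.Agent.Results.MP_e22489_mp.AveragedCoupling

open Pool.Agent.H2.LTM MeasureTheory Set

/-- For every `d`, `γ > 0` with `p = γ + d/2 ≥ 1`, every vector potential `A` in `L²_loc`, every
`V ≥ 0` in `L^p` and every `a > 0`:
`∫_0^∞ e^{-aλ} tr((-i∇+A)² - λV)_-^γ dλ ≤ L_{γ,d} ∫_0^∞ e^{-aλ} (∫ (λV)^p) dλ`. -/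
theorem result (d : ℕ) (γ : ℝ) (hγ : 0 < γ) (hp : 1 ≤ γ + d / 2)
    (A : Sp d → Sp d) (hA : Measurable A) (hA2 : ∀ i, LocallyIntegrable (fun x => A x i ^ 2))
    (V : Sp d → ℝ) (hV : Measurable V) (h0 : ∀ x, 0 ≤ V x)
    (hVp : ∫⁻ x, ENNReal.ofReal (V x ^ (γ + d / 2)) ≠ ⊤) (a : ℝ) (ha : 0 < a) :
    ∫⁻ lam in Ioi (0 : ℝ), ENNReal.ofReal (Real.exp (-(a * lam))) *
        riesz γ A (fun x => lam * V x) ≤
      LT γ d * ∫⁻ lam in Ioi (0 : ℝ), ENNReal.ofReal (Real.exp (-(a * lam))) *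
        ∫⁻ x, ENNReal.ofReal ((lam * V x) ^ (γ + d / 2)) :=
  averaged hγ hp hA hA2 hV h0 hVp ha

end Pool.Agent.Results.MP_e22489_mp.AveragedCoupling
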