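import Pool.Agent.H2.LTM.FIN

/-!
# MP_e22489_mp: an explicit comparison constant between the magnetic and the nonmagnetic
Lieb–Thirring constants for `γ ≥ 1`
-/

namespace Pool.Agent.Results.MP_e22489_mp.ComparisonConstant

open Pool.Agent.H2.LTM

/-- For every dimension `d` and every `γ ≥ 1`, with `p = γ + d/2`,
`L^mag_{γ,d} ≤ e^{d/2} γ^γ Γ(p+1) / (p^p Γ(γ+1)) * L_{γ,d}`. -/
theorem result (d : ℕ) (γ : ℝ) (hγ : 1 ≤ γ) :
    LTmag γ d ≤ ENNReal.ofReal (Real.exp (d / 2) * γ ^ γ * Real.Gamma (γ + d / 2 + 1) /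
      ((γ + d / 2) ^ (γ + d / 2 : ℝ) * Real.Gamma (γ + 1))) * LT γ d := by
  have hd0 : (0 : ℝ) ≤ d := Nat.cast_nonneg d
  exact comparison_large hγ (by linarith)

end Pool.Agent.Results.MP_e22489_mp.ComparisonConstant
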