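import Pool.Agent.H87.CF.Main

/-!
# MP_e22489_mp: lower bound for the magnetic constant in even dimensions from constant fields;
`L^mag_{0,6} ≥ 1/(216 π³)`
-/

open MeasureTheory
open scoped ENNReal

noncomputable section

namespace Pool.Agent.Results.MP_e22489_mp.ConstantField

open Pool.Agent.H2.LTM

/-- `∑_n |E_n|^γ` for `γ ≥ 0`; for `γ = 0` this is the number of negative eigenvalues -/
def rz {d : ℕ} (γ : ℝ) (A : Sp d → Sp d) (V : Sp d → ℝ) : ℝ≥0∞ :=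
  if γ = 0 then ((levels A V 0 : ℕ∞) : ℝ≥0∞) else riesz γ A V

/-- the best constant `L^mag_{γ,d}`, `γ ≥ 0` -/
def Lmag (γ : ℝ) (d : ℕ) : ℝ≥0∞ :=
  sInf {K | ∀ (A : Sp d → Sp d) (V : Sp d → ℝ), Measurable A →
    (∀ i, LocallyIntegrable (fun x => A x i ^ 2)) → Measurable V → (∀ x, 0 ≤ V x) →
    ∫⁻ x, ENNReal.ofReal (V x ^ (γ + d / 2)) ≠ ⊤ →
    rz γ A V ≤ K * ∫⁻ x, ENNReal.ofReal (V x ^ (γ + d / 2))}

/-- In dimension `2n`: `L^mag_{γ,2n} ≥ γ^γ / ((2π)^n (γ+n)^{γ+n})` for all `γ ≥ 0`. For `γ = 0` this is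
`(2πn)^{-n}`; for `n = 3` it is `1/(216 π³)`, larger than `L^{(1)}_{0,6} = 5/(1152 π³)`. -/
theorem result (n : ℕ) (hn : 1 ≤ n) (γ : ℝ) (hγ : 0 ≤ γ) :
    ENNReal.ofReal (γ ^ γ / ((2 * Real.pi) ^ n * (γ + n) ^ (γ + n))) ≤ Lmag γ (2 * n) := by
  rw [two_mul n]
  have hp : (γ + ((n + n : ℕ) : ℝ) / 2 : ℝ) = γ + n := by
    push_cast
    ring
  refine le_sInf fun K hK => Pool.Agent.H87.CF.main hn hγ fun A V h1 h2 h3 h4 h5 => ?_
  have h6 := hK A V h1 h2 h3 h4 (by rw [hp]; exact h5)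
  rw [hp] at h6
  exact h6

end Pool.Agent.Results.MP_e22489_mp.ConstantField
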