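import Pool.Agent.H87.LTI.Main
import Pool.Agent.H87.LTI.OP

/-!
# MP_e22489_mp: the optimal Lieb–Thirring constants with and without magnetic field are continuous
in the exponent; a multiplicative interpolation inequality with an explicit constant
-/

open Set
open scoped ENNReal

namespace Pool.Agent.Results.MP_e22489_mp.ContinuityInGamma

open Pool.Agent.H2.LTM Pool.Agent.H87.LTI

/-- For every `d ≥ 1`, on the open range `γ > 0`, `γ + d/2 > 1`: the constants `L_{γ,d}` and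
`L^mag_{γ,d}` are positive and finite, and `L_{γ,d}`, `L^mag_{γ,d}` and the quotient
`L^mag_{γ,d} / L_{γ,d}` are continuous functions of `γ`.  The quantitative form of left continuity:
for `γ = (1-t) γ0 + t γ1`, `γ1 < γ0`, both constants satisfy
`L_γ ≤ C L_{γ0}^{1-t} L_{γ1}^t` with the explicit constant `C` below, which tends to `1` as
`t → 0`. -/
theorem result (d : ℕ) (hd : 1 ≤ d) :
    (∀ γ : ℝ, 0 < γ → 1 < γ + d / 2 → 0 < LT γ d ∧ LT γ d ≤ LTmag γ d ∧ LTmag γ d < ⊤) ∧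
    ContinuousOn (fun γ : ℝ => LT γ d) {γ : ℝ | 0 < γ ∧ 1 < γ + d / 2} ∧
    ContinuousOn (fun γ : ℝ => LTmag γ d) {γ : ℝ | 0 < γ ∧ 1 < γ + d / 2} ∧
    ContinuousOn (fun γ : ℝ => LTmag γ d / LT γ d) {γ : ℝ | 0 < γ ∧ 1 < γ + d / 2} ∧
    (∀ γ1 γ0 t γ p0 p1 p : ℝ, 0 < γ1 → 1 < γ1 + d / 2 → γ1 < γ0 → 0 < t → t < 1 →
      γ = (1 - t) * γ0 + t * γ1 → p0 = γ0 + d / 2 → p1 = γ1 + d / 2 → p = γ + d / 2 →
      LT γ d ≤ ENNReal.ofReal ((γ / γ0) ^ (1 - t) * (γ / (γ - γ1)) ^ t *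
          ((1 - t) ^ (-(1 - t)) * t ^ (-t)) *
          (p ^ p / (((1 - t) * p0) ^ ((1 - t) * p0) * (t * p1) ^ (t * p1)))) *
          (LT γ0 d ^ (1 - t) * LT γ1 d ^ t) ∧
      LTmag γ d ≤ ENNReal.ofReal ((γ / γ0) ^ (1 - t) * (γ / (γ - γ1)) ^ t *
          ((1 - t) ^ (-(1 - t)) * t ^ (-t)) *
          (p ^ p / (((1 - t) * p0) ^ ((1 - t) * p0) * (t * p1) ^ (t * p1)))) *
          (LTmag γ0 d ^ (1 - t) * LTmag γ1 d ^ t)) := by
  have hb : (0 : ℝ) ≤ d / 2 := by positivity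
  have hfin : ∀ γ : ℝ, 0 < γ → 1 < γ + d / 2 → 0 < LT γ d ∧ LT γ d ≤ LTmag γ d ∧ LTmag γ d < ⊤ :=
    fun γ h1 h2 => ⟨LT_pos d h1 h2.le, LT_le_LTmag γ d, LTmag_lt_top hd h1 h2⟩
  refine ⟨hfin, LT_cont d hd, LTmag_cont d hd, ?_, ?_⟩
  · refine ContinuousOn.congr (f := fun γ : ℝ => LTmag γ d * (LT γ d)⁻¹) ?_
      (fun γ _ => div_eq_mul_inv _ _)
    intro γ hγ
    have h1 := LTmag_cont d hd γ hγ
    have h2 := (LT_cont d hd γ hγ).inv
    have h3 := hfin γ hγ.1 hγ.2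
    refine ENNReal.Tendsto.mul h1 (Or.inr ?_) h2 (Or.inr h3.2.2.ne)
    exact ENNReal.inv_ne_top.2 h3.1.ne'
  · intro γ1 γ0 t γ p0 p1 p h1 h1' h ht ht1 hγ hp0 hp1 hp
    have h1t : 0 < 1 - t := by linarith
    have hγγ1 : γ - γ1 = (1 - t) * (γ0 - γ1) := by rw [hγ]; ring
    have ha : γ1 < (1 - t) * γ0 + t * γ1 := by nlinarith
    have hb' : (1 - t) * γ0 + t * γ1 < γ0 := by nlinarith
    have hC : (γ / γ0) ^ (1 - t) * (γ / (γ - γ1)) ^ t *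
          ((1 - t) ^ (-(1 - t)) * t ^ (-t)) *
          (p ^ p / (((1 - t) * p0) ^ ((1 - t) * p0) * (t * p1) ^ (t * p1))) =
        cC (d / 2) γ1 γ0 t := by
      rw [hγγ1, hp0, hp1, hp, hγ, cC]
    have f0 := hfin γ0 (by linarith) (by linarith)
    have f1 := hfin γ1 h1 h1'
    rw [hC, hγ]
    refine ⟨?_, ?_⟩
    · exact OP_main hb h1 h ht ht1 f0.1.ne' (f0.2.1.trans_lt f0.2.2).ne f1.1.ne'
        (f1.2.1.trans_lt f1.2.2).ne
        (fun K η hK hη hη1 => LT_interp h1 ha hb' h1'.le hK hη hη1)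
    · exact OP_main hb h1 h ht ht1 (f0.1.trans_le f0.2.1).ne' f0.2.2.ne
        (f1.1.trans_le f1.2.1).ne' f1.2.2.ne
        (fun K η hK hη hη1 => LTmag_interp h1 ha hb' h1'.le hK hη hη1)

end Pool.Agent.Results.MP_e22489_mp.ContinuityInGamma
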